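import Pool.Agent.H14Trans.Mass

/-!
# Translates with few large prime factors

For `n` there is `K` such that for arbitrarily large `w` some `t ≥ 1`, a multiple of `(n!)²` with
`t + n ≤ w ^ K`, has no prime `q ∈ (n, w]` dividing one of the numbers `t + a`, `1 ≤ a ≤ n`.
-/

set_option autoImplicit false

namespace Pool.Agent.H1AES

open Finset Classical Pool.Agent.H14Trans

theorem rough (n : ℕ) (hn : 1 ≤ n) : ∃ K : ℕ, ∀ z : ℕ, ∃ w ≥ z, 2 ≤ w ∧ ∃ s ≥ 1,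
    n.factorial ^ 2 * s + n ≤ w ^ K ∧
      ∀ a ∈ Icc 1 n, ∀ q : ℕ, q.Prime → n < q → q ≤ w → ¬ q ∣ n.factorial ^ 2 * s + a := by
  obtain ⟨s₁, hs₁, hF⟩ := fundamental n 16 (by norm_num)
  obtain ⟨J₀, hJ₀⟩ := hF (2 * n + 2) le_rfl
  refine ⟨s₁ + 2, fun z => ?_⟩
  set y₀ := 2 * n + 2 with hy₀
  set M := n.factorial ^ 2 with hM
  set J := max J₀ (z + M + n + 4) with hJ
  set w : ℕ := y₀ ^ (2 ^ J) with hw
  have hwJ : J < w := by
    calc J < 2 ^ J := Nat.lt_two_pow_self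
      _ < 2 ^ (2 ^ J) := Nat.lt_two_pow_self
      _ ≤ w := Nat.pow_le_pow_left (by omega) _
  have hwbig : z + M + n + 4 ≤ w := by
    have : z + M + n + 4 ≤ J := le_max_right _ _
    omega
  have hwR : ((y₀ : ℕ) : ℝ) ^ (2 ^ J) = (w : ℝ) := by rw [hw]; push_cast; rfl
  have hwN : y₀ ^ (2 ^ J) = w := hw.symm
  set A : Finset ℕ := Icc 1 n with hA
  set D : Finset ℕ := (Ioc n w).filter Nat.Prime with hD
  have hDm : ∀ b ∈ D, n < b ∧ b ≤ w ∧ b.Prime := fun b hb => by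
    rw [hD, mem_filter, mem_Ioc] at hb; exact ⟨hb.1.1, hb.1.2, hb.2⟩
  have hcop : ∀ b ∈ D, M.Coprime b := by
    intro b hb
    obtain ⟨h1, _, h3⟩ := hDm b hb
    refine Nat.Coprime.pow_left 2 (Nat.Coprime.symm ((Nat.Prime.coprime_iff_not_dvd h3).mpr ?_))
    intro hd
    have := (h3.dvd_factorial).mp hd
    omega
  have hAcard : #A = n := by simp [hA]
  have hgood : Good (bd M 0 A) (fun _ => #A) D := by
    refine ⟨fun b hb => (hDm b hb).2.2.pos, fun b _ s => bd_periodic M 0 A b s,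
      fun b hb => card_bd (fun a ha => (mem_Icc.mp ha).2) (hDm b hb).1 (hcop b hb),
      fun b hb c hc hbc => (Nat.coprime_primes (hDm b hb).2.2 (hDm c hc).2.2).mpr hbc⟩
  have hmass : ∀ i < J, ∑ b ∈ lay y₀ D i, (1 : ℝ) / b ≤ 16 := by
    intro i _
    refine mass_le (y := y₀ ^ (2 ^ i)) (fun b hb => ?_) (fun b hb c hc hbc => ?_) ?_
      (fun b hb => ?_) (fun b hb => ?_)
    · exact (hDm b (mem_filter.mp hb).1).2.2.two_le
    · exact (Nat.coprime_primes (hDm b (mem_filter.mp hb).1).2.2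
        (hDm c (mem_filter.mp hc).1).2.2).mpr hbc
    · calc 2 ≤ y₀ ^ 1 := by rw [pow_one]; omega
        _ ≤ _ := Nat.pow_le_pow_right (by omega) Nat.one_le_two_pow
    · exact (mem_filter.mp hb).2.1
    · have h3 := (mem_filter.mp hb).2.2
      rwa [← pow_mul, ← pow_succ]
  obtain ⟨hVw, hFL⟩ := hJ₀ J (le_max_left _ _) (bd M 0 A) (fun _ => #A) D hgood
    (fun b hb => ⟨hAcard.le, by have := (hDm b hb).1; omega⟩)
    (fun b hb => by rw [hwN]; exact (hDm b hb).2.1) hmass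
  set V : ℝ := ∏ b ∈ D, (1 - ((#A : ℕ) : ℝ) / b) with hV
  rw [hwR] at hVw
  rw [hwN] at hFL
  have hlow := (hFL (w ^ s₁) le_rfl).1
  have hw4 : (4 : ℝ) ≤ w := by exact_mod_cast (by omega : 4 ≤ w)
  have hcount : 2 ≤ #((range (w ^ s₁)).filter (Sift (bd M 0 A) D)) := by
    have h1 : (w : ℝ) ^ 1 ≤ (w : ℝ) ^ (s₁ - 1) := pow_le_pow_right₀ (by linarith) (by omega)
    have h2 : (w : ℝ) ^ s₁ = (w : ℝ) ^ (s₁ - 1) * w := by
      rw [← pow_succ, Nat.sub_add_cancel (by omega)]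
    have h3 : (2 : ℝ) ≤ (#((range (w ^ s₁)).filter (Sift (bd M 0 A) D)) : ℝ) := by
      refine le_trans ?_ hlow
      push_cast
      rw [h2]
      have h4 : (w : ℝ) ^ (s₁ - 1) * 1 ≤ (w : ℝ) ^ (s₁ - 1) * (V * w) :=
        mul_le_mul_of_nonneg_left hVw (by positivity)
      nlinarith
    exact_mod_cast h3
  obtain ⟨s, hs, hs0⟩ := exists_mem_ne (by omega : 1 <
    #((range (w ^ s₁)).filter (Sift (bd M 0 A) D))) 0
  rw [mem_filter, mem_range] at hs
  refine ⟨w, by omega, by omega, s, by omega, ?_, ?_⟩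
  · have h1 : M * s ≤ w * w ^ s₁ := Nat.mul_le_mul (by omega) hs.1.le
    have h2 : w ^ 1 ≤ w ^ (s₁ + 1) := Nat.pow_le_pow_right (by omega) (by omega)
    have h3 : w ^ (s₁ + 2) = w * w ^ (s₁ + 1) := by ring
    have h4 : w * w ^ s₁ = w ^ (s₁ + 1) := by ring
    have h5 : 2 * w ^ (s₁ + 1) ≤ w * w ^ (s₁ + 1) := Nat.mul_le_mul_right _ (by omega)
    have h6 : w ^ 1 = w := pow_one w
    have h7 : M * s ≤ w ^ (s₁ + 1) := h1.trans h4.le
    have h8 : n ≤ w ^ (s₁ + 1) := by omega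
    calc M * s + n ≤ 2 * w ^ (s₁ + 1) := by omega
      _ ≤ w * w ^ (s₁ + 1) := h5
      _ = w ^ (s₁ + 2) := h3.symm
  · intro a ha q hq hnq hqw hdvd
    refine hs.2 q ?_ ⟨a, ha, by rw [Nat.zero_add]; exact hdvd⟩
    rw [hD, mem_filter, mem_Ioc]
    exact ⟨⟨hnq, hqw⟩, hq⟩

/-- Few elements of a pairwise coprime set can spoil such a translate. -/
theorem spoil (n : ℕ) (hn : 1 ≤ n) : ∃ k : ℕ, ∀ B₀ : Set ℕ,
    (∀ b ∈ B₀, ∀ c ∈ B₀, b ≠ c → b.Coprime c) → ∀ z : ℕ, ∃ F : Finset ℕ,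
      (∀ b ∈ F, b ∈ B₀ ∧ z < b) ∧ #F ≤ k ∧ ∃ t ≥ 1, ∀ B : Set ℕ, B ⊆ B₀ → (∀ b ∈ F, b ∉ B) →
        ∀ a, 1 ≤ a → a ≤ n → ((∀ b ∈ B, ¬ b ∣ a) ↔ ∀ b ∈ B, ¬ b ∣ a + t) := by
  obtain ⟨K, hK⟩ := rough n hn
  refine ⟨n * K, fun B₀ hc z => ?_⟩
  obtain ⟨w, hwz, hw2, s, hs1, hle, hro⟩ := hK z
  set t := n.factorial ^ 2 * s with ht
  have htpos : 1 ≤ t := Nat.mul_pos (pow_pos n.factorial_pos 2) hs1
  -- the quotient `(a + t) / a`
  have hquot : ∀ a, 1 ≤ a → a ≤ n → ∃ u, a + t = a * u ∧ ∀ p, p.Prime → p ∣ u → w < p := by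
    intro a ha1 han
    have hd : a ∣ n.factorial := Nat.dvd_factorial ha1 han
    obtain ⟨r, hr⟩ := hd
    refine ⟨1 + r * n.factorial * s, ?_, ?_⟩
    · rw [ht, sq]
      nth_rewrite 1 [hr]
      ring
    · intro p hp hpu
      by_contra hcon
      push Not at hcon
      by_cases hpn : p ≤ n
      · have h1 : p ∣ n.factorial := (hp.dvd_factorial).mpr hpn
        have h2 : p ∣ r * n.factorial * s := Dvd.dvd.mul_right (Dvd.dvd.mul_left h1 r) s
        have h3 : p ∣ 1 := (Nat.dvd_add_iff_left h2).mpr hpu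
        exact hp.one_lt.ne' (Nat.dvd_one.mp h3)
      · push Not at hpn
        refine hro a (mem_Icc.mpr ⟨ha1, han⟩) p hp hpn hcon ?_
        have h4 : n.factorial ^ 2 * s + a = a * (1 + r * n.factorial * s) := by
          rw [sq]
          nth_rewrite 1 [hr]
          ring
        rw [h4]
        exact Dvd.dvd.mul_left hpu a
  set F : Finset ℕ := (range (t + n + 1)).filter
    (fun b => b ∈ B₀ ∧ ∃ a ∈ Icc 1 n, b ∣ a + t ∧ ¬ b ∣ a) with hF
  have hbig : ∀ b a, 1 ≤ a → a ≤ n → b ∣ a + t → ¬ b ∣ a → ∃ q, q.Prime ∧ w < q ∧ q ∣ b ∧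
      q ∣ a + t := by
    intro b a ha1 han hb hnb
    obtain ⟨u, hu, hup⟩ := hquot a ha1 han
    have hnc : ¬ b.Coprime u := by
      intro hco
      rw [hu] at hb
      exact hnb (hco.dvd_of_dvd_mul_right hb)
    obtain ⟨q, hq, hqb, hqu⟩ := Nat.Prime.not_coprime_iff_dvd.mp hnc
    exact ⟨q, hq, hup q hq hqu, hqb, hu ▸ Dvd.dvd.mul_left hqu a⟩
  have hFm : ∀ b ∈ F, b ∈ B₀ ∧ ∃ a ∈ Icc 1 n, b ∣ a + t ∧ ¬ b ∣ a := fun b hb => by
    rw [hF, mem_filter] at hb; exact hb.2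
  refine ⟨F, fun b hb => ?_, ?_, t, htpos, ?_⟩
  · obtain ⟨h1, a, ha, h2, h3⟩ := hFm b hb
    rw [mem_Icc] at ha
    obtain ⟨q, hq, hwq, hqb, _⟩ := hbig b a ha.1 ha.2 h2 h3
    have hb0 : 0 < b := Nat.pos_of_ne_zero (fun h => by
      rw [h, zero_dvd_iff] at h2; omega)
    have := Nat.le_of_dvd hb0 hqb
    exact ⟨h1, by omega⟩
  · set P : Finset ℕ := (Icc 1 n).biUnion (fun a => (a + t).primeFactors.filter (fun q => w < q))
      with hP
    have hPcard : #P ≤ n * K := by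
      have h1 : ∀ a ∈ Icc 1 n, #((a + t).primeFactors.filter (fun q => w < q)) ≤ K := by
        intro a ha
        rw [mem_Icc] at ha
        set T := (a + t).primeFactors.filter (fun q => w < q) with hT
        have h2 : ∏ q ∈ T, q ∣ a + t := by
          refine (prod_dvd_prod_of_subset _ _ (fun q => q) (filter_subset _ _)).trans
            (Nat.prod_primeFactors_dvd _)
        have h3 : w ^ #T ≤ ∏ q ∈ T, q := by
          rw [← prod_const]
          exact prod_le_prod' (fun q hq => (mem_filter.mp hq).2.le)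
        have h4 : w ^ #T ≤ w ^ K := by
          refine h3.trans ((Nat.le_of_dvd (by omega) h2).trans ?_)
          omega
        exact (Nat.pow_le_pow_iff_right (by omega)).mp h4
      calc #P ≤ ∑ a ∈ Icc 1 n, #((a + t).primeFactors.filter (fun q => w < q)) := card_biUnion_le
        _ ≤ ∑ _a ∈ Icc 1 n, K := sum_le_sum h1
        _ = n * K := by simp
    refine le_trans ?_ hPcard
    have hex : ∀ b ∈ F, ∃ q ∈ P, q.Prime ∧ q ∣ b := by
      intro b hb
      obtain ⟨_, a, ha, h2, h3⟩ := hFm b hb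
      have ha' := mem_Icc.mp ha
      obtain ⟨q, hq, hwq, hqb, hqa⟩ := hbig b a ha'.1 ha'.2 h2 h3
      refine ⟨q, ?_, hq, hqb⟩
      rw [hP, mem_biUnion]
      refine ⟨a, ha, ?_⟩
      rw [mem_filter, Nat.mem_primeFactors]
      exact ⟨⟨hq, hqa, by omega⟩, hwq⟩
    choose! g hg using hex
    refine card_le_card_of_injOn g (fun b hb => (hg b hb).1) ?_
    intro b hb c hc' hbc
    by_contra hne
    have h1 := hc b (hFm b hb).1 c (hFm c hc').1 hne
    have h2 := (hg b hb).2.2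
    have h3 := (hg c hc').2.2
    rw [← hbc] at h3
    exact Nat.not_coprime_of_dvd_of_dvd (hg b hb).2.1.one_lt h2 h3 h1
  · intro B hB hBF a ha1 han
    constructor
    · intro h b hb hd
      refine hBF b ?_ hb
      rw [hF, mem_filter, mem_range]
      have := Nat.le_of_dvd (by omega) hd
      exact ⟨by omega, hB hb, a, mem_Icc.mpr ⟨ha1, han⟩, hd, h b hb⟩
    · intro h b hb hd
      obtain ⟨u, hu, _⟩ := hquot a ha1 han
      exact h b hb (hu ▸ Dvd.dvd.mul_right hd u)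

end Pool.Agent.H1AES
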