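import Pool.Agent.H1AES.Sparse
import Pool.Agent.PalSieve.Mertens

/-!
# The reciprocal sum after removing a sparse set of primes
-/

set_option autoImplicit false

namespace Pool.Agent.H1AES

open Finset Classical

lemma mertens_bound (B : Set ℕ) (hB : ∀ b ∈ B, b.Prime)
    (hR : ∀ x, #((range (x + 1)).filter (fun b => b.Prime ∧ b ∉ B)) ≤ Nat.log 2 x)
    (x : ℝ) (hx : 3 ≤ x) :
    |(∑ b ∈ (range ⌈x⌉₊).filter (fun b => b ∈ B), 1 / (b : ℝ)) -
      Real.log (Real.log x)| ≤ 16 := by
  set N := ⌈x⌉₊ with hN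
  have hN3 : 3 ≤ N := by
    have : (3 : ℝ) ≤ N := hx.trans (Nat.le_ceil x)
    exact_mod_cast this
  have hxN : x ≤ N := Nat.le_ceil x
  have hNx : (N : ℝ) < x + 1 := Nat.ceil_lt_add_one (by linarith)
  set T := (range N).filter (fun b => b.Prime ∧ b ∉ B) with hT
  have hTs : ∑ b ∈ T, (1 : ℝ) / b ≤ 1 := by
    have h1 := sum_inv_le_one T (fun y => ?_)
    · have : (0 : ℝ) ≤ (1 / 2) ^ #T := by positivity
      linarith
    · refine le_trans (card_le_card ?_) (hR y)
      intro b hb
      rw [mem_filter, hT, mem_filter] at hb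
      rw [mem_filter, mem_range]
      exact ⟨by omega, hb.1.2⟩
  have hT0 : 0 ≤ ∑ b ∈ T, (1 : ℝ) / b := sum_nonneg (fun b _ => by positivity)
  have hsplit : ∑ b ∈ (range N).filter Nat.Prime, (1 : ℝ) / b =
      (∑ b ∈ (range N).filter (fun b => b ∈ B), 1 / (b : ℝ)) + ∑ b ∈ T, (1 : ℝ) / b := by
    rw [← sum_filter_add_sum_filter_not ((range N).filter Nat.Prime) (fun b => b ∈ B)]
    congr 1
    · refine sum_congr ?_ (fun _ _ => rfl)
      ext b
      simp only [mem_filter]
      constructor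
      · rintro ⟨⟨h1, _⟩, h3⟩; exact ⟨h1, h3⟩
      · rintro ⟨h1, h3⟩; exact ⟨⟨h1, hB b h3⟩, h3⟩
    · refine sum_congr ?_ (fun _ _ => rfl)
      ext b
      simp only [mem_filter, hT, and_assoc]
  have hIco : (range N).filter Nat.Prime = (Ico 2 N).filter Nat.Prime := by
    ext b
    simp only [mem_filter, mem_range, mem_Ico]
    constructor
    · rintro ⟨h1, h2⟩; exact ⟨⟨h2.two_le, h1⟩, h2⟩
    · rintro ⟨⟨_, h1⟩, h2⟩; exact ⟨h1, h2⟩
  have hM := Pool.Agent.Sv.abs_sum_inv_sub_le (n := 2) (m := N) le_rfl (by omega)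
  rw [← hIco, hsplit] at hM
  push_cast at hM
  have hl2a := Real.log_two_gt_d9
  have hl2b := Real.log_two_lt_d9
  have h9 : 9 / Real.log 2 ≤ 13.1 := by
    rw [div_le_iff₀ (by linarith)]; nlinarith
  have hll2a : -0.5 < Real.log (Real.log 2) := by
    have h1 : Real.log (Real.exp (-0.5)) < Real.log (Real.log 2) := by
      refine Real.log_lt_log (Real.exp_pos _) ?_
      have h2 : Real.exp (-0.5) ≤ 1 / (1 + 0.5) := by
        rw [Real.exp_neg, ← one_div]
        refine one_div_le_one_div_of_le (by norm_num) ?_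
        have := Real.add_one_le_exp (0.5 : ℝ)
        linarith
      have h3 : (1 : ℝ) / (1 + 0.5) < 0.67 := by norm_num
      linarith
    rwa [Real.log_exp] at h1
  have hll2b : Real.log (Real.log 2) < 0 := Real.log_neg (by linarith) (by linarith)
  have hlx : 1 < Real.log x := by
    have h1 : Real.exp 1 < x := by have := Real.exp_one_lt_d9; linarith
    calc (1 : ℝ) = Real.log (Real.exp 1) := (Real.log_exp 1).symm
      _ < Real.log x := Real.log_lt_log (Real.exp_pos 1) h1
  have hlN : Real.log x ≤ Real.log N := Real.log_le_log (by linarith) hxN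
  have hlN2 : Real.log N ≤ 2 * Real.log x := by
    have h1 : (N : ℝ) ≤ x ^ 2 := by nlinarith
    calc Real.log N ≤ Real.log (x ^ 2) := Real.log_le_log (by positivity) h1
      _ = 2 * Real.log x := by rw [Real.log_pow]; norm_num
  have hll1 : Real.log (Real.log x) ≤ Real.log (Real.log N) :=
    Real.log_le_log (by linarith) hlN
  have hll3 : Real.log (Real.log N) ≤ Real.log 2 + Real.log (Real.log x) := by
    rw [← Real.log_mul (by norm_num) (by linarith)]
    exact Real.log_le_log (by linarith) hlN2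
  have h5 := abs_le.mp hM
  rw [abs_le]
  constructor
  · linarith [h5.1]
  · linarith [h5.2]

end Pool.Agent.H1AES
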