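import Pool.Agent.H1AES.Core

/-!
# Random subsets of a pairwise coprime set
-/

set_option autoImplicit false

namespace Pool.Agent.H1AES

open Finset Classical MeasureTheory ProbabilityTheory Filter
open scoped ENNReal

lemma meas_inter_compl {Ω : Type} [MeasurableSpace Ω] {μ : Measure Ω} {E : ℕ → Set Ω}
    (h : iIndepSet E μ) (T : Finset ℕ) :
    μ (⋂ b ∈ T, (E b)ᶜ) = ∏ b ∈ T, μ (E b)ᶜ := by
  refine (iIndepSet_iff E μ).mp h T (f := fun b => (E b)ᶜ) (fun b _ => ?_)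
  exact MeasurableSet.compl (MeasurableSpace.measurableSet_generateFrom (Set.mem_singleton _))

theorem random_aux {Ω : Type} [MeasurableSpace Ω] {μ : Measure Ω} {B₀ : Set ℕ}
    (hc : ∀ b ∈ B₀, ∀ c ∈ B₀, b ≠ c → b.Coprime c) {B : Ω → Set ℕ} (hsub : ∀ ω, B ω ⊆ B₀)
    (hm : ∀ b, MeasurableSet {ω | b ∈ B ω}) (hind : iIndepSet (fun b : ℕ => {ω | b ∈ B ω}) μ)
    {c : ℝ} (hc0 : 0 ≤ c) (hc1 : c < 1) (hP : ∀ b ∈ B₀, μ.real {ω | b ∈ B ω} ≤ c) (n : ℕ) (hn : 1 ≤ n) :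
    ∀ᵐ ω ∂μ, ∃ t ≥ 1, ∀ a, 1 ≤ a → a ≤ n →
      ((∀ b ∈ B ω, ¬ b ∣ a) ↔ ∀ b ∈ B ω, ¬ b ∣ a + t) := by
  have hprob : IsProbabilityMeasure μ := hind.isProbabilityMeasure
  obtain ⟨k, hk⟩ := spoil n hn
  choose F hF hFk t ht htF using hk B₀ hc
  -- disjoint sets of spoilers
  let zs : ℕ → ℕ := fun j => Nat.rec 0 (fun _ z => max z ((F z).sup id)) j
  have hzs : ∀ j, zs (j + 1) = max (zs j) ((F (zs j)).sup id) := fun j => rfl
  have hmono : Monotone zs := monotone_nat_of_le_succ (fun j => by rw [hzs]; exact le_max_left _ _)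
  set G : ℕ → Finset ℕ := fun j => F (zs j) with hG
  have hGlow : ∀ j, ∀ b ∈ G j, zs j < b := fun j b hb => (hF (zs j) b hb).2
  have hGup : ∀ j, ∀ b ∈ G j, b ≤ zs (j + 1) := fun j b hb => by
    rw [hzs]
    exact le_trans (le_sup (f := id) hb) (le_max_right _ _)
  have hdisj : ∀ i j, i ≠ j → Disjoint (G i) (G j) := by
    have key : ∀ i j, i < j → Disjoint (G i) (G j) := by
      intro i j hij
      rw [Finset.disjoint_left]
      intro b hb hb'
      have h1 := hGup i b hb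
      have h2 := hGlow j b hb'
      have h3 := hmono (show i + 1 ≤ j by omega)
      omega
    intro i j hij
    rcases lt_or_gt_of_ne hij with h | h
    · exact key i j h
    · exact (key j i h).symm
  set A : ℕ → Set Ω := fun j => ⋂ b ∈ G j, {ω | b ∈ B ω}ᶜ with hA
  have hAm : ∀ j, MeasurableSet (A j) := fun j =>
    Finset.measurableSet_biInter _ (fun b _ => (hm b).compl)
  have hAind : iIndepSet A μ := by
    rw [iIndepSet_iff_meas_biInter hAm]
    intro S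
    have h1 : (⋂ j ∈ S, A j) = ⋂ b ∈ S.biUnion G, {ω | b ∈ B ω}ᶜ := by
      ext ω
      simp only [hA, Set.mem_iInter, mem_biUnion]
      constructor
      · rintro h b ⟨j, hj, hb⟩
        exact h j hj b hb
      · intro h j hj b hb
        exact h b ⟨j, hj, hb⟩
    rw [h1, meas_inter_compl hind, prod_biUnion (fun i _ j _ hij => hdisj i j hij)]
    exact prod_congr rfl (fun j _ => (meas_inter_compl hind (G j)).symm)
  have hAlow : ∀ j, ENNReal.ofReal ((1 - c) ^ k) ≤ μ (A j) := by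
    intro j
    have h1 : ∀ b ∈ G j, ENNReal.ofReal (1 - c) ≤ μ {ω | b ∈ B ω}ᶜ := by
      intro b hb
      have h2 : μ.real {ω | b ∈ B ω}ᶜ = 1 - μ.real {ω | b ∈ B ω} := by
        rw [measureReal_compl (hm b)]
        simp
      have h3 : 1 - c ≤ μ.real {ω | b ∈ B ω}ᶜ := by
        rw [h2]
        have := hP b (hF (zs j) b hb).1
        linarith
      calc ENNReal.ofReal (1 - c) ≤ ENNReal.ofReal (μ.real {ω | b ∈ B ω}ᶜ) :=
            ENNReal.ofReal_le_ofReal h3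
        _ = μ {ω | b ∈ B ω}ᶜ := ofReal_measureReal
    calc ENNReal.ofReal ((1 - c) ^ k) ≤ ENNReal.ofReal ((1 - c) ^ #(G j)) := by
          refine ENNReal.ofReal_le_ofReal ?_
          exact pow_le_pow_of_le_one (by linarith) (by linarith) (hFk (zs j))
      _ = ENNReal.ofReal (1 - c) ^ #(G j) := ENNReal.ofReal_pow (by linarith) _
      _ = ∏ _b ∈ G j, ENNReal.ofReal (1 - c) := by rw [prod_const]
      _ ≤ ∏ b ∈ G j, μ {ω | b ∈ B ω}ᶜ := prod_le_prod' h1
      _ = μ (A j) := (meas_inter_compl hind (G j)).symm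
  have hsum : (∑' j, μ (A j)) = ∞ := by
    have h1 : ENNReal.ofReal ((1 - c) ^ k) ≠ 0 := by
      rw [Ne, ENNReal.ofReal_eq_zero, not_le]
      exact pow_pos (by linarith) _
    have h2 : (∑' _ : ℕ, ENNReal.ofReal ((1 - c) ^ k)) = ∞ :=
      ENNReal.tsum_const_eq_top_of_ne_zero h1
    exact top_le_iff.mp (h2 ▸ ENNReal.tsum_le_tsum hAlow)
  have hlim := measure_limsup_eq_one hAm hAind hsum
  have hae : ∀ᵐ ω ∂μ, ω ∈ limsup A atTop := by
    have hml : MeasurableSet (limsup A atTop) := MeasurableSet.measurableSet_limsup hAm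
    rw [ae_iff]
    have := prob_compl_eq_zero_iff hml (μ := μ)
    exact this.mpr hlim
  filter_upwards [hae] with ω hω
  rw [mem_limsup_iff_frequently_mem] at hω
  obtain ⟨j, hj⟩ := hω.exists
  refine ⟨t (zs j), ht (zs j), htF (zs j) (B ω) (hsub ω) (fun b hb => ?_)⟩
  simp only [hA, Set.mem_iInter] at hj
  exact hj b hb

theorem random {Ω : Type} [MeasurableSpace Ω] {μ : Measure Ω} {B₀ : Set ℕ}
    (hc : ∀ b ∈ B₀, ∀ c ∈ B₀, b ≠ c → b.Coprime c) {B : Ω → Set ℕ} (hsub : ∀ ω, B ω ⊆ B₀)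
    (hm : ∀ b, MeasurableSet {ω | b ∈ B ω}) (hind : iIndepSet (fun b : ℕ => {ω | b ∈ B ω}) μ)
    {c : ℝ} (hc1 : c < 1) (hP : ∀ b ∈ B₀, μ.real {ω | b ∈ B ω} ≤ c) :
    ∀ᵐ ω ∂μ, ∀ n, 1 ≤ n → ∃ t ≥ 1, ∀ a, 1 ≤ a → a ≤ n →
      ((∀ b ∈ B ω, ¬ b ∣ a) ↔ ∀ b ∈ B ω, ¬ b ∣ a + t) := by
  rw [ae_all_iff]
  intro n
  by_cases hn : 1 ≤ n
  · filter_upwards [random_aux hc hsub hm hind (c := max c 0) (le_max_right _ _)
      (max_lt hc1 one_pos) (fun b hb => (hP b hb).trans (le_max_left _ _)) n hn] with ω hω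
    exact fun _ => hω
  · exact Eventually.of_forall (fun ω h => absurd h hn)

end Pool.Agent.H1AES
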