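import Pool.Agent.H1AES.Core

/-!
# Removing an arbitrarily sparse set
-/

set_option autoImplicit false

namespace Pool.Agent.H1AES

open Finset Classical Filter

theorem sparse (B₀ : Set ℕ) (hc : ∀ b ∈ B₀, ∀ c ∈ B₀, b ≠ c → b.Coprime c) (f : ℕ → ℕ)
    (hf : Tendsto f atTop atTop) : ∃ R : Set ℕ, R ⊆ B₀ ∧
      (∀ x, #((range (x + 1)).filter (fun b => b ∈ R)) ≤ f x) ∧
      ∀ B : Set ℕ, B ⊆ B₀ → Disjoint B R → ∀ n, 1 ≤ n → ∃ t ≥ 1, ∀ a, 1 ≤ a → a ≤ n →
        ((∀ b ∈ B, ¬ b ∣ a) ↔ ∀ b ∈ B, ¬ b ∣ a + t) := by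
  choose k hk using fun n : ℕ => spoil (n + 1) (by omega)
  -- the thresholds
  have hN : ∀ n, ∃ N, ∀ x ≥ N, ∑ i ∈ range (n + 1), k i ≤ f x := fun n =>
    eventually_atTop.mp (hf.eventually_ge_atTop _)
  choose N hN using hN
  set z : ℕ → ℕ := fun n => max (N n) n with hz
  choose F hF hFk t ht htF using fun n => hk n B₀ hc (z n)
  refine ⟨{b | ∃ n, b ∈ F n}, ?_, ?_, ?_⟩
  · rintro b ⟨n, hb⟩
    exact (hF n b hb).1
  · intro x
    set I := (range x).filter (fun i => z i < x) with hI
    by_cases hne : I.Nonempty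
    · set m := I.max' hne with hm
      have hmI : m ∈ I := I.max'_mem hne
      rw [hI, mem_filter] at hmI
      have hsub : (range (x + 1)).filter (fun b => b ∈ {b | ∃ n, b ∈ F n}) ⊆
          (range (m + 1)).biUnion F := by
        intro b hb
        rw [mem_filter, mem_range] at hb
        obtain ⟨hbx, n, hbn⟩ := hb
        have h1 := (hF n b hbn).2
        have h2 : n ≤ z n := le_max_right _ _
        have hnI : n ∈ I := by
          rw [hI, mem_filter, mem_range]
          exact ⟨by omega, by omega⟩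
        rw [mem_biUnion]
        exact ⟨n, by rw [mem_range]; have := I.le_max' n hnI; omega, hbn⟩
      calc #((range (x + 1)).filter (fun b => b ∈ {b | ∃ n, b ∈ F n}))
          ≤ #((range (m + 1)).biUnion F) := card_le_card hsub
        _ ≤ ∑ i ∈ range (m + 1), #(F i) := card_biUnion_le
        _ ≤ ∑ i ∈ range (m + 1), k i := sum_le_sum (fun i _ => hFk i)
        _ ≤ f x := hN m x (by have : N m ≤ z m := le_max_left _ _
                              omega)
    · rw [not_nonempty_iff_eq_empty] at hne
      have hemp : (range (x + 1)).filter (fun b => b ∈ {b | ∃ n, b ∈ F n}) = ∅ := by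
        rw [filter_eq_empty_iff]
        rintro b hb ⟨n, hbn⟩
        rw [mem_range] at hb
        have h1 := (hF n b hbn).2
        have h2 : n ≤ z n := le_max_right _ _
        have hnI : n ∈ I := by
          rw [hI, mem_filter, mem_range]
          exact ⟨by omega, by omega⟩
        rw [hne] at hnI
        exact absurd hnI (notMem_empty n)
      rw [hemp, card_empty]
      exact Nat.zero_le _
  · intro B hB hdis n hn
    have h := htF (n - 1) B hB (fun b hb hbB =>
      (Set.disjoint_left.mp hdis) hbB ⟨n - 1, hb⟩)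
    rw [Nat.sub_add_cancel hn] at h
    exact ⟨t (n - 1), ht (n - 1), h⟩

/-- A finite set with at most `log₂ x` elements up to `x` for all `x` has reciprocal sum at most
`1`. -/
lemma sum_inv_le_one (T : Finset ℕ) (hT : ∀ x, #(T.filter (fun b => b ≤ x)) ≤ Nat.log 2 x) :
    ∑ b ∈ T, (1 : ℝ) / b ≤ 1 - (1 / 2) ^ #T := by
  induction T using Finset.induction_on_max with
  | empty => simp
  | insert m T hm ih =>
    have hmT : m ∉ T := fun h => lt_irrefl m (hm m h)
    have h1 : ∀ x, #(T.filter (fun b => b ≤ x)) ≤ Nat.log 2 x := fun x =>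
      (card_le_card (filter_subset_filter _ (subset_insert m T))).trans (hT x)
    have h2 := hT m
    have h3 : (insert m T).filter (fun b => b ≤ m) = insert m T := by
      rw [filter_eq_self]
      intro b hb
      rw [mem_insert] at hb
      rcases hb with rfl | hb
      · exact le_rfl
      · exact (hm b hb).le
    rw [h3, card_insert_of_notMem hmT] at h2
    have hm0 : m ≠ 0 := by
      rintro rfl
      simp at h2
    have h4 : 2 ^ (#T + 1) ≤ m := (Nat.pow_le_pow_right (by norm_num) h2).trans
      (Nat.pow_log_le_self 2 hm0)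
    have h5 : (1 : ℝ) / m ≤ (1 / 2) ^ (#T + 1) := by
      rw [one_div_pow]
      refine one_div_le_one_div_of_le (by positivity) ?_
      exact_mod_cast h4
    rw [sum_insert hmT, card_insert_of_notMem hmT]
    have h6 := ih h1
    have h7 : ((1 : ℝ) / 2) ^ (#T + 1) = (1 / 2) ^ #T / 2 := by rw [pow_succ]; ring
    rw [h7] at h5 ⊢
    linarith

end Pool.Agent.H1AES
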